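import Pool.Agent.MP_514f48_lc.Mg.Main

open Pool.Agent.Lib.Cx Pool.Agent.MP_514f48_lc

/-- Permutation pattern matching is decidable in polynomial time, for arbitrary patterns, when the
text lies in the substitution closure of `Grid(M) ∪ Av(321) ∪ Av(123)`. -/
theorem Pool.Agent.Results.MP_514f48_lc.Closure.result {k l : ℕ} (M : Fin k → Fin l → Cell) :
    ∃ f : List ℕ × List ℕ → Bool, N68a2faeb.IsPolyTime f ∧
      ∀ π τ : Pm, SubCl (fun σ => InGrid M σ ∨ Av321 σ ∨ Av123 σ) τ →
        (f (code π, code τ) = true ↔ Contains τ π) :=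
  ⟨alg (k + l) (tab M), pt_iff_isPolyTime.1 (alg_pt _ _), alg_spec M⟩
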